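import Pool.Agent.MP_e30343_lc.Defs

namespace Pool.Agent.MP_e30343_lc

open Filter Topology Set Order

universe u v

section basic
variable {X : Type u} [TopologicalSpace X] {Y : Type v} [TopologicalSpace Y]

theorem iter_zero (A : Set X) : iter A 0 = A := by
  unfold iter; simp

theorem iter_succ (A : Set X) (o : Ordinal.{0}) : iter A (o + 1) = seqClosure (iter A o) := by
  unfold iter; simp

theorem iter_limit (A : Set X) {l : Ordinal.{0}} (hl : IsSuccLimit l) :
    iter A l = ⋃ (b : Ordinal.{0}) (_ : b < l), iter A b := by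
  unfold iter; rw [Ordinal.limitRecOn_limit _ _ _ _ hl]

theorem seqClosure_mono' {A B : Set X} (h : A ⊆ B) : seqClosure A ⊆ seqClosure B :=
  fun _ ⟨x, hx, hp⟩ => ⟨x, fun n => h (hx n), hp⟩

theorem iter_mono_set {A B : Set X} (h : A ⊆ B) (o : Ordinal.{0}) : iter A o ⊆ iter B o := by
  induction o using Ordinal.limitRecOn with
  | zero => simpa [iter_zero] using h
  | add_one o ih => rw [iter_succ, iter_succ]; exact seqClosure_mono' ih
  | limit l hl ih =>
    rw [iter_limit _ hl, iter_limit _ hl]
    exact iUnion₂_mono fun b hb => ih b hb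

theorem iter_mono_ord (A : Set X) {a b : Ordinal.{0}} (h : a ≤ b) : iter A a ⊆ iter A b := by
  induction b using Ordinal.limitRecOn with
  | zero => rw [nonpos_iff_eq_zero.1 h]
  | add_one o ih =>
    rcases h.lt_or_eq with h | h
    · rw [iter_succ]
      exact (ih (Order.lt_add_one_iff.1 h)).trans subset_seqClosure
    · rw [h]
  | limit l hl ih =>
    rcases h.lt_or_eq with h | h
    · rw [iter_limit _ hl]
      exact subset_iUnion₂ (s := fun b (_ : b < l) => iter A b) a h
    · rw [h]

theorem iter_subset_closed {A C : Set X} (hC : IsClosed C) (h : A ⊆ C) (o : Ordinal.{0}) :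
    iter A o ⊆ C := by
  induction o using Ordinal.limitRecOn with
  | zero => simpa [iter_zero] using h
  | add_one o ih =>
    rw [iter_succ]
    exact (seqClosure_mono' ih).trans (by rw [hC.isSeqClosed.seqClosure_eq])
  | limit l hl ih =>
    rw [iter_limit _ hl]
    exact iUnion₂_subset fun b hb => ih b hb

theorem iter_subset_closure (A : Set X) (o : Ordinal.{0}) : iter A o ⊆ closure A :=
  iter_subset_closed isClosed_closure subset_closure o

theorem iter_iter (A : Set X) (a b : Ordinal.{0}) : iter (iter A a) b ⊆ iter A (a + b) := by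
  induction b using Ordinal.limitRecOn with
  | zero => simp [iter_zero]
  | add_one o ih =>
    rw [iter_succ, ← add_assoc, iter_succ]; exact seqClosure_mono' ih
  | limit l hl ih =>
    rw [iter_limit _ hl]
    exact iUnion₂_subset fun b hb => (ih b hb).trans
      (iter_mono_ord A (add_le_add_right hb.le a))

theorem image_iter {f : X → Y} (hf : Continuous f) (A : Set X) (o : Ordinal.{0}) :
    f '' iter A o ⊆ iter (f '' A) o := by
  induction o using Ordinal.limitRecOn with
  | zero => simp [iter_zero]
  | add_one o ih =>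
    rw [iter_succ, iter_succ]
    rintro _ ⟨p, ⟨x, hx, hp⟩, rfl⟩
    exact ⟨f ∘ x, fun n => ih ⟨x n, hx n, rfl⟩, (hf.tendsto p).comp hp⟩
  | limit l hl ih =>
    rw [iter_limit _ hl, iter_limit _ hl, image_iUnion₂]
    exact iUnion₂_mono fun b hb => ih b hb

/-- lifting along sequentially proper maps -/
theorem iter_image {f : X → Y}
    (hf : ∀ (x : ℕ → X) (y : Y), Tendsto (f ∘ x) atTop (𝓝 y) →
      ∃ (p : X) (φ : ℕ → ℕ), StrictMono φ ∧ Tendsto (x ∘ φ) atTop (𝓝 p) ∧ f p = y)
    (A : Set X) (o : Ordinal.{0}) : iter (f '' A) o ⊆ f '' iter A o := by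
  induction o using Ordinal.limitRecOn with
  | zero => simp [iter_zero]
  | add_one o ih =>
    rw [iter_succ, iter_succ]
    rintro y ⟨z, hz, hy⟩
    choose x hx hxz using fun n => ih (hz n)
    have : z = f ∘ x := funext fun n => (hxz n).symm
    obtain ⟨p, φ, -, hp, rfl⟩ := hf x y (this ▸ hy)
    exact ⟨p, ⟨x ∘ φ, fun n => hx _, hp⟩, rfl⟩
  | limit l hl ih =>
    rw [iter_limit _ hl, iter_limit _ hl, image_iUnion₂]
    exact iUnion₂_mono fun b hb => ih b hb

theorem iter_of_isSeqClosed {A : Set X} (hA : IsSeqClosed A) (o : Ordinal.{0}) : iter A o ⊆ A := by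
  induction o using Ordinal.limitRecOn with
  | zero => simp [iter_zero]
  | add_one o ih =>
    rw [iter_succ]
    exact (seqClosure_mono' ih).trans (by rw [hA.seqClosure_eq])
  | limit l hl ih =>
    rw [iter_limit _ hl]
    exact iUnion₂_subset fun b hb => ih b hb

/-- every closure is reached after `c` steps -/
def Bd (X : Type u) [TopologicalSpace X] (c : Ordinal.{0}) : Prop :=
  ∀ A : Set X, closure A ⊆ iter A c

theorem Bd.sequential {c : Ordinal.{0}} (h : Bd X c) : SequentialSpace X :=
  ⟨fun A hA => closure_subset_iff_isClosed.1 ((h A).trans (iter_of_isSeqClosed hA c))⟩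

theorem bd_iff {c : Ordinal.{0}} : Bd X c ↔ ∀ A : Set X, iter A c = closure A :=
  ⟨fun h A => (iter_subset_closure A c).antisymm (h A), fun h A => (h A).ge⟩

theorem Bd.exists_order {c : Ordinal.{0}} (h : Bd X c) : ∃ b ≤ c, HasOrder X b := by
  have hne : {c : Ordinal.{0} | ∀ A : Set X, iter A c = closure A}.Nonempty := ⟨c, bd_iff.1 h⟩
  exact ⟨_, (isLeast_csInf hne).2 (bd_iff.1 h), h.sequential, isLeast_csInf hne⟩

theorem HasOrder.bd {a : Ordinal.{0}} (h : HasOrder X a) : Bd X a := bd_iff.2 h.2.1

theorem HasOrder.le {a c : Ordinal.{0}} (h : HasOrder X a) (hc : Bd X c) : a ≤ c :=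
  h.2.2 (bd_iff.1 hc)

theorem Bd.subtype {c : Ordinal.{0}} (h : Bd X c) {N : Set X} (hN : IsClosed N) : Bd N c := by
  intro A x hx
  have h1 : (x : X) ∈ iter (Subtype.val '' A) c := h _ (closure_subtype.1 hx)
  obtain ⟨p, hp, hpx⟩ := iter_image (f := (Subtype.val : N → X)) (fun z y hy => by
    have hyN : y ∈ N := hN.mem_of_tendsto hy (Eventually.of_forall fun n => (z n).2)
    exact ⟨⟨y, hyN⟩, id, strictMono_id, tendsto_subtype_rng.2 hy, rfl⟩) A c h1
  rwa [← Subtype.ext hpx]

end basic

section group
variable {G : Type u} [Group G] [TopologicalSpace G] [IsTopologicalGroup G]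

theorem bd_of_one {c : Ordinal.{0}} (h : ∀ A : Set G, (1 : G) ∈ closure A → (1 : G) ∈ iter A c) :
    Bd G c := by
  intro A g hg
  have h1 : (1 : G) ∈ closure ((fun z => g⁻¹ * z) '' A) := by
    have := image_closure_subset_closure_image (continuous_const_mul g⁻¹) (mem_image_of_mem _ hg)
    simpa using this
  have h2 := image_iter (continuous_const_mul g) _ c (mem_image_of_mem _ (h _ h1))
  rw [image_image] at h2
  simpa using h2

end group

end Pool.Agent.MP_e30343_lc
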