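import Mathlib

namespace Pool.Agent.MP_e30343_lc

open Filter Topology

universe u

/-- The iterated sequential closure `[A]_o`. -/
noncomputable def iter {X : Type u} [TopologicalSpace X] (A : Set X) (o : Ordinal.{0}) : Set X :=
  Ordinal.limitRecOn (motive := fun _ => Set X) o A (fun _ B => seqClosure B)
    (fun l _ f => ⋃ (b : Ordinal.{0}) (h : b < l), f b h)

/-- `X` is sequential and its sequential order is `a`. -/
def HasOrder (X : Type u) [TopologicalSpace X] (a : Ordinal.{0}) : Prop :=
  SequentialSpace X ∧ IsLeast {c : Ordinal.{0} | ∀ A : Set X, iter A c = closure A} a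

/-- `a` is the sequential order of a sequential Hausdorff group whose identity is a q-point. -/
def QOrder (a : Ordinal.{0}) : Prop :=
  ∃ (G : Type u) (_ : Group G) (_ : TopologicalSpace G), IsTopologicalGroup G ∧ T2Space G ∧
    (∃ U : ℕ → Set G, (∀ k, U k ∈ 𝓝 (1 : G)) ∧
      ∀ x : ℕ → G, (∀ k, x k ∈ U k) → ∃ p, MapClusterPt p atTop x) ∧ HasOrder G a

/-- `a` is the sequential order of a countably compact sequential Hausdorff group. -/
def CCOrder (a : Ordinal.{0}) : Prop :=
  ∃ (G : Type u) (_ : Group G) (_ : TopologicalSpace G), IsTopologicalGroup G ∧ T2Space G ∧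
    CountablyCompactSpace G ∧ HasOrder G a

end Pool.Agent.MP_e30343_lc
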