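import Pool.Agent.MP_e30343_lc.Basic

namespace Pool.Agent.MP_e30343_lc

open Filter Topology Set Order

universe u

section pi
variable {X : ℕ → Type u} [∀ n, TopologicalSpace (X n)]

theorem seqCompact_pi [∀ n, SeqCompactSpace (X n)] : SeqCompactSpace (∀ n, X n) := by
  refine ⟨fun x _ => ?_⟩
  have step : ∀ (n : ℕ) (f : ℕ → ℕ), ∃ (a : X n) (ψ : ℕ → ℕ), StrictMono ψ ∧
      Tendsto (fun k => x (f (ψ k)) n) atTop (𝓝 a) := fun n f => by
    obtain ⟨a, ψ, h1, h2⟩ := SeqCompactSpace.tendsto_subseq (fun k => x (f k) n)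
    exact ⟨a, ψ, h1, h2⟩
  choose a ψ hψ ha using step
  let φ : ℕ → ℕ → ℕ := fun n => Nat.rec id (fun n f => f ∘ ψ n f) n
  have hφs : ∀ n, φ (n + 1) = φ n ∘ ψ n (φ n) := fun n => rfl
  have hφ : ∀ n, StrictMono (φ n) := by
    intro n
    induction n with
    | zero => exact strictMono_id
    | succ n ih => rw [hφs]; exact ih.comp (hψ _ _)
  have hsub : ∀ n m k, ∃ j, k ≤ j ∧ φ (n + m) k = φ n j := by
    intro n m
    induction m with
    | zero => exact fun k => ⟨k, le_rfl, rfl⟩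
    | succ m ih =>
      intro k
      obtain ⟨j, hj, hj'⟩ := ih (ψ (n + m) (φ (n + m)) k)
      exact ⟨j, ((hψ _ _).id_le k).trans hj, by rw [← add_assoc, hφs]; exact hj'⟩
  refine ⟨fun n => a n (φ n), mem_univ _, fun k => φ k k, strictMono_nat_of_lt_succ fun k => ?_, ?_⟩
  · rw [hφs]
    exact hφ k (lt_of_lt_of_le (Nat.lt_succ_self k) ((hψ _ _).id_le (k + 1)))
  · refine tendsto_pi_nhds.2 fun n => ?_
    intro U hU
    obtain ⟨K, hK⟩ := eventually_atTop.1 (ha n (φ n) hU)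
    refine mem_map.2 (eventually_atTop.2 ⟨max K (n + 1), fun k hk => ?_⟩)
    obtain ⟨m, rfl⟩ := Nat.exists_eq_add_of_le (le_trans (le_max_right _ _) hk)
    obtain ⟨j, hj, hj'⟩ := hsub (n + 1) m (n + 1 + m)
    have := hK j (le_trans (le_trans (le_max_left _ _) hk) hj)
    show x (φ (n + 1 + m) (n + 1 + m)) n ∈ U
    rw [hj', hφs]
    exact this

/-- partial sums -/
noncomputable def ps (a : ℕ → Ordinal.{0}) (n : ℕ) : Ordinal.{0} := ((List.range n).map a).sum

theorem ps_succ (a : ℕ → Ordinal.{0}) (n : ℕ) : ps a (n + 1) = ps a n + a n := by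
  simp [ps, List.range_succ]

theorem ps_mono {a b : ℕ → Ordinal.{0}} (h : ∀ n, a n ≤ b n) (n : ℕ) : ps a n ≤ ps b n := by
  induction n with
  | zero => simp [ps]
  | succ n ih => rw [ps_succ, ps_succ]; exact add_le_add ih (h n)

theorem ps_lt {a : ℕ → Ordinal.{0}} (h : ∀ n, a n < Ordinal.omega.{0} 1) (n : ℕ) :
    ps a n < Ordinal.omega.{0} 1 := by
  induction n with
  | zero => simpa [ps] using Ordinal.omega_pos 1
  | succ n ih => rw [ps_succ]; exact Ordinal.isPrincipal_add_omega 1 ih (h n)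

theorem approx [∀ n, SeqCompactSpace (X n)] [∀ n, T2Space (X n)] [∀ n, RegularSpace (X n)]
    {b : ℕ → Ordinal.{0}} (hb : ∀ n, Bd (X n) (b n)) (x : ∀ n, X n) (n : ℕ) :
    ∀ A : Set (∀ n, X n),
      (∀ V : ∀ n, Set (X n), (∀ i, V i ∈ 𝓝 (x i)) → ∃ y ∈ A, ∀ i < n, y i ∈ V i) →
      ∃ y ∈ iter A (ps b n), ∀ i < n, y i = x i := by
  have : SeqCompactSpace (∀ n, X n) := seqCompact_pi
  induction n with
  | zero =>
    intro A hA
    obtain ⟨y, hy, -⟩ := hA (fun _ => univ) (fun _ => univ_mem)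
    exact ⟨y, by simpa [ps, iter_zero] using hy, fun i hi => absurd hi (Nat.not_lt_zero i)⟩
  | succ n ih =>
    intro A hA
    set B : Set (∀ n, X n) := {y | y ∈ iter A (ps b n) ∧ ∀ i < n, y i = x i} with hB
    have h1 : x n ∈ closure ((fun y : ∀ n, X n => y n) '' B) := by
      refine (mem_closure_iff_nhds_basis (closed_nhds_basis (x n))).2 fun W hW => ?_
      obtain ⟨y, hy, hyx⟩ := ih (A ∩ {y | y n ∈ W}) fun V hV => by
        classical
        obtain ⟨y, hyA, hy⟩ := hA (Function.update V n W) fun i => by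
          by_cases h : i = n
          · subst h; simpa using hW.1
          · rw [Function.update_of_ne h]; exact hV i
        refine ⟨y, ⟨hyA, by simpa using hy n (Nat.lt_succ_self n)⟩, fun i hi => ?_⟩
        have := hy i (Nat.lt_succ_of_lt hi)
        rwa [Function.update_of_ne hi.ne] at this
      refine ⟨y n, ⟨y, ⟨iter_mono_set inter_subset_left _ hy, hyx⟩, rfl⟩, ?_⟩
      exact iter_subset_closed (hW.2.preimage (continuous_apply n)) inter_subset_right _ hy
    obtain ⟨y, hy, hyn⟩ := iter_image (f := fun y : ∀ n, X n => y n) (fun z w hw => by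
      obtain ⟨p, φ, hφ, hp⟩ := SeqCompactSpace.tendsto_subseq z
      refine ⟨p, φ, hφ, hp, ?_⟩
      exact tendsto_nhds_unique (((continuous_apply n).tendsto p).comp hp)
        (hw.comp hφ.tendsto_atTop)) B (b n) (hb n _ h1)
    refine ⟨y, ?_, fun i hi => ?_⟩
    · rw [ps_succ]
      exact iter_iter A _ _ (iter_mono_set (fun z hz => hz.1) _ hy)
    · rcases (Nat.lt_succ_iff.1 hi).lt_or_eq with hi | rfl
      · exact iter_subset_closed (C := {y : ∀ n, X n | y i = x i})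
          (isClosed_eq (continuous_apply i) continuous_const) (fun z hz => hz.2 i hi) _ hy
      · exact hyn

theorem bd_pi [∀ n, SeqCompactSpace (X n)] [∀ n, T2Space (X n)] [∀ n, RegularSpace (X n)]
    {b : ℕ → Ordinal.{0}} (hb : ∀ n, Bd (X n) (b n)) :
    Bd (∀ n, X n) ((⨆ n, ps b n) + 1) := by
  intro A x hx
  have h : ∀ n, ∃ y ∈ iter A (ps b n), ∀ i < n, y i = x i := fun n =>
    approx hb x n A fun V hV => by
      have hU : (⋂ i ∈ Finset.range n, (fun y : ∀ n, X n => y i) ⁻¹' V i) ∈ 𝓝 x :=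
        (biInter_finset_mem _).2 fun i _ => (continuous_apply i).continuousAt (hV i)
      obtain ⟨y, hy1, hy2⟩ := mem_closure_iff_nhds.1 hx _ hU
      exact ⟨y, hy2, fun i hi => mem_iInter₂.1 hy1 i (Finset.mem_range.2 hi)⟩
  choose y hy hyx using h
  rw [iter_succ]
  refine ⟨y, fun n => iter_mono_ord A (Ordinal.le_iSup (fun n => ps b n) n) (hy n), ?_⟩
  refine tendsto_pi_nhds.2 fun i => tendsto_const_nhds.congr' ?_
  exact eventually_atTop.2 ⟨i + 1, fun n hn => (hyx n i hn).symm⟩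

end pi

theorem lower {N : ℕ → Type u} [∀ n, Group (N n)] [∀ n, TopologicalSpace (N n)]
    [∀ n, IsTopologicalGroup (N n)] {b : ℕ → Ordinal.{0}} (hb : ∀ n, HasOrder (N n) (b n))
    {l : Ordinal.{0}} (hl : IsSuccLimit l) (hc : (Iio l).Countable)
    (h : ∀ c < l, ∀ m, ∃ n, m ≤ n ∧ c < b n) : ¬ Bd (∀ n, N n) l := by
  intro hbd
  obtain ⟨e, he⟩ := hc.exists_eq_range ⟨0, hl.bot_lt⟩
  have hw : ∀ n c, c < b n → ∃ A : Set (N n), (1 : N n) ∈ closure A ∧ (1 : N n) ∉ iter A c := by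
    intro n c hcn
    by_contra hcon
    push Not at hcon
    exact absurd ((hb n).le (bd_of_one hcon)) (not_le.2 hcn)
  have hA : ∀ n, ∃ A : Set (N n), (1 : N n) ∈ closure A ∧
      ∀ i ≤ n, e i < b n → (1 : N n) ∉ iter A (e i) := by
    intro n
    classical
    by_cases hF : ((Finset.range (n + 1)).filter fun i => e i < b n).Nonempty
    · obtain ⟨j, hj, hmax⟩ := Finset.exists_max_image _ e hF
      obtain ⟨A, hA1, hA2⟩ := hw n (e j) (Finset.mem_filter.1 hj).2
      exact ⟨A, hA1, fun i hi hib h1 => hA2 (iter_mono_ord A (hmax i (Finset.mem_filter.2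
        ⟨Finset.mem_range.2 (Nat.lt_succ_of_le hi), hib⟩)) h1)⟩
    · exact ⟨univ, by simp, fun i hi hib _ => hF ⟨i, Finset.mem_filter.2
        ⟨Finset.mem_range.2 (Nat.lt_succ_of_le hi), hib⟩⟩⟩
  choose A hA1 hA2 using hA
  have h1 : (1 : ∀ n, N n) ∈ closure (univ.pi A) := by
    rw [closure_pi_set]; exact fun n _ => hA1 n
  have h2 := hbd _ h1
  rw [iter_limit _ hl] at h2
  obtain ⟨c, hcl, hc1⟩ := mem_iUnion₂.1 h2
  obtain ⟨i, rfl⟩ : c ∈ range e := he ▸ hcl
  obtain ⟨n, hin, hn⟩ := h _ hcl i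
  refine hA2 n i hin hn (iter_mono_set ?_ _
    (image_iter (continuous_apply n) _ _ (mem_image_of_mem _ hc1)))
  rintro _ ⟨y, hy, rfl⟩
  exact hy n (mem_univ n)

end Pool.Agent.MP_e30343_lc
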