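import Pool.Agent.MP_e30343_lc.Prod

namespace Pool.Agent.MP_e30343_lc

open Filter Topology Set Order Pointwise

universe u

theorem subseq_of_cluster {X : Type u} [TopologicalSpace X] [SequentialSpace X] [T1Space X]
    {x : ℕ → X} {p : X} (hp : MapClusterPt p atTop x) :
    ∃ (l : X) (φ : ℕ → ℕ), StrictMono φ ∧ Tendsto (x ∘ φ) atTop (𝓝 l) := by
  by_contra hcon
  push Not at hcon
  have h1 : ∀ m, ∃ n > m, x n = p := by
    intro m
    have hc : IsClosed (range fun i => x (i + (m + 1))) :=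
      isClosed_range_of_not_tendsto fun l φ hφ =>
        hcon l _ ((strictMono_id.add_const _).comp hφ)
    have h2 := mapClusterPt_atTop_iff_forall_mem_closure.1 hp (m + 1)
    have h3 : x '' Ici (m + 1) ⊆ range fun i => x (i + (m + 1)) := by
      rintro _ ⟨n, hn, rfl⟩
      exact ⟨n - (m + 1), by simp only []; rw [Nat.sub_add_cancel hn]⟩
    obtain ⟨i, hi⟩ := hc.closure_subset_iff.2 h3 h2
    exact ⟨i + (m + 1), by omega, hi⟩
  obtain ⟨φ, hφ, hφp⟩ := Nat.exists_strictMono_subsequence h1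
  exact hcon p φ hφ (tendsto_const_nhds.congr fun n => (hφp n).symm)

theorem exists_core {a : Ordinal.{0}} (h : QOrder.{u} a) :
    ∃ (N : Type u) (_ : Group N) (_ : TopologicalSpace N) (b : Ordinal.{0}),
      IsTopologicalGroup N ∧ T2Space N ∧ SeqCompactSpace N ∧ HasOrder N b ∧ b ≤ a ∧ a ≤ 1 + b := by
  obtain ⟨G, _, _, _, _, ⟨U, hU, hq⟩, hG⟩ := h
  have := hG.1
  have step : ∀ V : Set G, ∃ W : Set G, V ∈ 𝓝 (1 : G) →
      W ∈ 𝓝 (1 : G) ∧ IsClosed W ∧ W⁻¹ = W ∧ W * W ⊆ V := fun V => by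
    by_cases hV : V ∈ 𝓝 (1 : G)
    · obtain ⟨W, h1, h2⟩ := exists_closed_nhds_one_inv_eq_mul_subset hV
      exact ⟨W, fun _ => ⟨h1, h2⟩⟩
    · exact ⟨univ, fun h => absurd h hV⟩
  choose s hs using step
  let W : ℕ → Set G := fun k => Nat.rec (s (U 0)) (fun k V => s (V ∩ U (k + 1))) k
  have hW0 : W 0 = s (U 0) := rfl
  have hWs : ∀ k, W (k + 1) = s (W k ∩ U (k + 1)) := fun k => rfl
  have hWn : ∀ k, W k ∈ 𝓝 (1 : G) := by
    intro k
    induction k with
    | zero => exact (hs _ (hU 0)).1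
    | succ k ih => exact (hs _ (inter_mem ih (hU _))).1
  have hWc : ∀ k, IsClosed (W k) := by
    intro k
    cases k with
    | zero => exact (hs _ (hU 0)).2.1
    | succ k => exact (hs _ (inter_mem (hWn k) (hU _))).2.1
  have hWi : ∀ k, (W k)⁻¹ = W k := by
    intro k
    cases k with
    | zero => exact (hs _ (hU 0)).2.2.1
    | succ k => exact (hs _ (inter_mem (hWn k) (hU _))).2.2.1
  have hWm : ∀ k, W (k + 1) * W (k + 1) ⊆ W k ∩ U (k + 1) := fun k =>
    (hs _ (inter_mem (hWn k) (hU _))).2.2.2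
  have hsq : ∀ k, W k ⊆ W k * W k := fun k z hz =>
    ⟨z, hz, 1, mem_of_mem_nhds (hWn k), mul_one z⟩
  have hWU : ∀ k, W k ⊆ U k := by
    intro k
    cases k with
    | zero => exact (hsq 0).trans (hs _ (hU 0)).2.2.2
    | succ k => exact (hsq (k + 1)).trans ((hWm k).trans inter_subset_right)
  have hanti : Antitone W :=
    antitone_nat_of_succ_le fun k => (hsq (k + 1)).trans ((hWm k).trans inter_subset_left)
  let N : Subgroup G :=
    { carrier := ⋂ k, W k
      mul_mem' := fun {y z} hy hz => mem_iInter.2 fun k =>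
        (hWm k ⟨y, mem_iInter.1 hy (k + 1), z, mem_iInter.1 hz (k + 1), rfl⟩).1
      one_mem' := mem_iInter.2 fun k => mem_of_mem_nhds (hWn k)
      inv_mem' := fun {y} hy => mem_iInter.2 fun k => by
        rw [← hWi k]; simpa using mem_iInter.1 hy k }
  have hNc : IsClosed (N : Set G) := isClosed_iInter hWc
  have hsel : ∀ x : ℕ → G, (∀ k, x k ∈ W k) →
      ∃ l ∈ N, ∃ φ : ℕ → ℕ, StrictMono φ ∧ Tendsto (x ∘ φ) atTop (𝓝 l) := by
    intro x hx
    obtain ⟨p, hp⟩ := hq x fun k => hWU k (hx k)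
    obtain ⟨l, φ, hφ, hl⟩ := subseq_of_cluster hp
    refine ⟨l, mem_iInter.2 fun k => (hWc k).mem_of_tendsto hl ?_, φ, hφ, hl⟩
    exact eventually_atTop.2 ⟨k, fun n hn => hanti (hn.trans (hφ.id_le n)) (hx _)⟩
  obtain ⟨b, hba, hb⟩ := (hG.bd.subtype hNc).exists_order
  refine ⟨N, inferInstance, inferInstance, b, inferInstance, inferInstance, ⟨fun x _ => ?_⟩, hb,
    hba, hG.le (bd_of_one fun A hA => ?_)⟩
  · obtain ⟨l, hl, φ, hφ, ht⟩ := hsel (fun k => (x k : G)) fun k => mem_iInter.1 (x k).2 k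
    exact ⟨⟨l, hl⟩, mem_univ _, φ, hφ, tendsto_subtype_rng.2 ht⟩
  · have h1 : (1 : G) ∈ closure (Subtype.val '' {z : N | (z : G) ∈ seqClosure A}) := by
      refine (mem_closure_iff_nhds_basis (closed_nhds_basis (1 : G))).2 fun V hV => ?_
      choose x hx1 hx2 using fun k => mem_closure_iff_nhds.1 hA _ (inter_mem hV.1 (hWn k))
      obtain ⟨l, hl, φ, hφ, ht⟩ := hsel x fun k => (hx1 k).2
      exact ⟨l, ⟨⟨l, hl⟩, ⟨x ∘ φ, fun n => hx2 _, ht⟩, rfl⟩,
        hV.2.mem_of_tendsto ht (Eventually.of_forall fun n => (hx1 _).1)⟩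
    have h2 : (1 : N) ∈ closure {z : N | (z : G) ∈ seqClosure A} := closure_subtype.2 h1
    have h3 := image_iter continuous_subtype_val _ b (mem_image_of_mem _ (hb.bd _ h2))
    refine iter_iter A 1 b (iter_mono_set ?_ b h3)
    rintro _ ⟨z, hz, rfl⟩
    have : iter A 1 = seqClosure A := by
      have := iter_succ A 0
      rwa [zero_add, iter_zero] at this
    rw [this]; exact hz

theorem main (a : ℕ → Ordinal.{0}) (ha : ∀ n, a n < Ordinal.omega.{0} 1 ∧ QOrder.{u} (a n)) :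
    ∃ c : Ordinal.{0}, c < Ordinal.omega.{0} 1 ∧ CCOrder.{u} c ∧
      c ≤ (⨆ n, ((List.range n).map a).sum) + 1 ∧
      ∀ l : Ordinal.{0}, IsSuccLimit l → (∀ g < l, ∀ m, ∃ n, m ≤ n ∧ g < a n) → l < c := by
  choose N iG iT b h1 h2 h3 h4 h5 h6 using fun n => exists_core (ha n).2
  have hbd : Bd (∀ n, N n) ((⨆ n, ps b n) + 1) := bd_pi fun n => (h4 n).bd
  obtain ⟨c, hc, hco⟩ := hbd.exists_order
  have hsup : (⨆ n, ps a n) < Ordinal.omega.{0} 1 :=
    Ordinal.iSup_lt_omega_one (ps_lt fun n => (ha n).1)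
  have hle : c ≤ (⨆ n, ps a n) + 1 := hc.trans (add_le_add_left
    (Ordinal.iSup_le fun n => (ps_mono h5 n).trans (Ordinal.le_iSup (fun n => ps a n) n)) 1)
  have : SeqCompactSpace (∀ n, N n) := seqCompact_pi
  refine ⟨c, hle.trans_lt ((Cardinal.isSuccLimit_omega 1).add_one_lt hsup),
    ⟨∀ n, N n, inferInstance, inferInstance, inferInstance, inferInstance, inferInstance, hco⟩,
    hle, fun l hl h => ?_⟩
  by_contra hcon
  have hcount : (Iio l).Countable := by
    have : Iio l ⊆ ⋃ n, Iio (a n) := fun g hg => by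
      obtain ⟨n, -, hn⟩ := h g hg 0
      exact mem_iUnion.2 ⟨n, hn⟩
    refine (countable_iUnion fun n => ?_).mono this
    rw [Cardinal.countable_iff_lt_aleph_one, Ordinal.mk_Iio_ordinal]
    have := Cardinal.lt_ord.1 (Cardinal.ord_aleph 1 ▸ (ha n).1)
    simpa using Cardinal.lift_lt.{0, 1}.2 this
  refine lower h4 hl hcount (fun g hg m => ?_) fun A =>
    (hco.bd A).trans (iter_mono_ord A (not_lt.1 hcon))
  obtain ⟨n, hn, hgn⟩ := h (g + 1) (hl.add_one_lt hg) m
  refine ⟨n, hn, ?_⟩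
  have h7 : 1 + g ≤ g + 1 := by
    rcases lt_or_ge g Ordinal.omega0 with hg | hg
    · obtain ⟨k, rfl⟩ := Ordinal.lt_omega0.1 hg
      exact le_of_eq (by exact_mod_cast (Nat.add_comm 1 k))
    · rw [Ordinal.one_add_of_omega0_le hg]; exact le_self_add
  exact lt_of_add_lt_add_left (h7.trans_lt (hgn.trans_le (h6 n)))

end Pool.Agent.MP_e30343_lc
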